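import Pool.Agent.MVO.StmtsG

/-!
# Squad MVO, row COM
-/

namespace Pool.Agent.MVO.H31

open Pool.Agent.Helper14_MV Pool.Agent.Helper2_MV Pool.Agent.MVO

theorem com_perm (ρ : FIC) (h : RR ρ [0, 1] [1, 0]) {u v : List ℕ} (hp : u.Perm v) :
    RR ρ u v := by
  induction hp with
  | nil => exact RR.refl _
  | cons a _ ih =>
    have h1 := (RR.refl (β := ρ) [a]).append ih
    simpa using h1
  | swap a b l =>
    have h1 := h.sub (fun c => if c = 0 then [b] else [a])
    have h2 := h1.append (RR.refl (β := ρ) l)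
    simpa using h2
  | trans _ _ ih1 ih2 => exact ρ.trans ih1 ih2

/-- **COM** -/
theorem com : ComStmt := by
  intro ρ u v h hb
  exact com_perm ρ h (List.perm_iff_count.2 hb)

end Pool.Agent.MVO.H31
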